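import Pool.Agent.Helper50.Drop.RotDefs

/-!
# Sign conditions for the level loops (explicit trigonometry)
-/

set_option autoImplicit false

namespace Pool.Agent.Helper50.Drop

open Finset MeasureTheory
open scoped RealInnerProductSpace
open Pool.Agent.Helper76.Freq (Q ins tr gr ev cobd cup Pr Adm gp Dep Nrm R3 E6 ver pt qf IsTop IsBot
  H4 exists_isTop exists_isBot)

lemma box_inner3 (a b : R3) : ⟪a, b⟫ = a 0 * b 0 + a 1 * b 1 + a 2 * b 2 := by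
  rw [PiLp.inner_apply, Fin.sum_univ_three]
  simp [mul_comm]

lemma box_inner_Rot (V a u : R3) (N α : ℝ) (hN : N ≠ 0) :
    N ^ 2 * ⟪Rot (N⁻¹ • V) α a, u⟫ = N ^ 2 * (Real.cos α * ⟪a, u⟫) +
      (1 - Real.cos α) * (⟪V, a⟫ * ⟪V, u⟫) + N * (Real.sin α * ⟪crs V a, u⟫) := by
  have hc : crs (N⁻¹ • V) a = N⁻¹ • crs V a := by
    ext i
    fin_cases i <;> simp [crs] <;> ring
  rw [Rot, hc, inner_add_left, inner_add_left, real_inner_smul_left, real_inner_smul_left,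
    real_inner_smul_left, real_inner_smul_left, real_inner_smul_left, real_inner_smul_left]
  field_simp

lemma box_norm_sq (x y : ℝ) : ‖VB x y‖ ^ 2 =
    3 + 6 * ((1 / 2 - x) / 50) ^ 2 + 2 * ((y - 1 / 2) / 5) ^ 2 := by
  rw [← real_inner_self_eq_norm_sq, box_inner3]
  simp [VB]
  ring

/-- the bounds for the angle -/
lemma box_angle {t : ℝ} (ht : t ∈ Set.Icc (15 / 32 : ℝ) (17 / 32)) :
    ∃ c s : ℝ, Real.cos (2 * Real.pi * t) = -c ∧ Real.sin (2 * Real.pi * t) = -s ∧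
      49 / 50 ≤ c ∧ c ≤ 1 ∧ |s| ≤ 1 / 5 ∧ (t = 15 / 32 → s ≤ -(19 / 100)) ∧
      (t = 17 / 32 → 19 / 100 ≤ s) := by
  obtain ⟨h1, h2⟩ := ht
  have hp : Real.pi < 3.15 := Real.pi_lt_d2
  have hp' : 3.14 < Real.pi := Real.pi_gt_d2
  set δ : ℝ := 2 * Real.pi * t - Real.pi with hδ
  have hδ1 : |δ| ≤ 63 / 320 := by
    rw [abs_le]
    constructor <;> nlinarith
  have e1 : Real.cos (2 * Real.pi * t) = -Real.cos δ := by
    rw [hδ, Real.cos_sub_pi]; ring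
  have e2 : Real.sin (2 * Real.pi * t) = -Real.sin δ := by
    rw [hδ, Real.sin_sub_pi]; ring
  refine ⟨Real.cos δ, Real.sin δ, e1, e2, ?_, Real.cos_le_one _, ?_, ?_, ?_⟩
  · have := Real.one_sub_sq_div_two_le_cos (x := δ)
    have h3 : δ ^ 2 ≤ (63 / 320) ^ 2 := by
      rw [← sq_abs]; exact pow_le_pow_left₀ (abs_nonneg _) hδ1 2
    nlinarith
  · have := Real.abs_sin_le_abs (x := δ)
    linarith
  · intro h
    have hd : δ = -(Real.pi / 16) := by rw [hδ, h]; ring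
    rw [hd, Real.sin_neg]
    have h4 := Real.sin_gt_sub_cube (x := Real.pi / 16) (by positivity)
    have h5 : (Real.pi / 16) ^ 3 ≤ (1 / 5) ^ 3 :=
      pow_le_pow_left₀ (by positivity) (by linarith) 3
    nlinarith
  · intro h
    have hd : δ = Real.pi / 16 := by rw [hδ, h]; ring
    rw [hd]
    have h4 := Real.sin_gt_sub_cube (x := Real.pi / 16) (by positivity)
    have h5 : (Real.pi / 16) ^ 3 ≤ (1 / 5) ^ 3 :=
      pow_le_pow_left₀ (by positivity) (by linarith) 3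
    nlinarith

lemma box_abs_mul {a b A B : ℝ} (ha : |a| ≤ A) (hb : |b| ≤ B) : |a * b| ≤ A * B := by
  rw [abs_mul]
  exact mul_le_mul ha hb (abs_nonneg _) ((abs_nonneg _).trans ha)

lemma box_key1 {N p q c s : ℝ} (hN : |N| ≤ 7 / 4) (hc1 : 49 / 50 ≤ c) (hc2 : c ≤ 1)
    (hs : |s| ≤ 1 / 5) (hp : |p| ≤ 1 / 100) (hq : |q| ≤ 1 / 10) :
    (p = 1 / 100 → 0 < 6 * (1 - c) + 18 * p * (1 + c) + 12 * p ^ 2 * (1 - c) - 8 * q ^ 2 * c -
      2 * q * (N * s)) ∧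
    (p = -(1 / 100) → 6 * (1 - c) + 18 * p * (1 + c) + 12 * p ^ 2 * (1 - c) - 8 * q ^ 2 * c -
      2 * q * (N * s) < 0) := by
  have h1 := box_abs_mul hq (box_abs_mul hN hs)
  have hc0 : |c| ≤ 1 := by rw [abs_le]; constructor <;> linarith
  have h2 := box_abs_mul (box_abs_mul hq hq) hc0
  have h3 : 0 ≤ q * q * c := mul_nonneg (mul_self_nonneg q) (by linarith)
  rw [abs_le] at h1 h2
  obtain ⟨h1a, h1b⟩ := h1
  obtain ⟨h2a, h2b⟩ := h2
  constructor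
  · intro h
    subst h
    nlinarith
  · intro h
    subst h
    nlinarith

lemma box_key2 {N p q c s : ℝ} (hN : |N| ≤ 7 / 4) (hc1 : 49 / 50 ≤ c) (hc2 : c ≤ 1)
    (hs : |s| ≤ 1 / 5) (hp : |p| ≤ 1 / 100) (hq : |q| ≤ 1 / 10) :
    (q = -(1 / 10) → 6 * (1 - c) + 9 * (q - p) * (1 + c) + 3 * (q - p) ^ 2 * (1 + c) -
        c * (24 * p ^ 2 + 8 * q ^ 2) + (N * s) * (3 * p + q) < 0) ∧
    (q = 1 / 10 → 0 < 6 * (1 - c) + 9 * (q - p) * (1 + c) + 3 * (q - p) ^ 2 * (1 + c) -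
        c * (24 * p ^ 2 + 8 * q ^ 2) + (N * s) * (3 * p + q)) := by
  have hc0 : |c| ≤ 1 := by rw [abs_le]; constructor <;> linarith
  have hc3 : |1 + c| ≤ 2 := by rw [abs_le]; constructor <;> linarith
  have hpc := box_abs_mul hp hc3
  obtain ⟨hp1, hp2⟩ := abs_le.mp hp
  obtain ⟨hq1, hq2⟩ := abs_le.mp hq
  have h4 : |3 * p + q| ≤ 13 / 100 := by
    rw [abs_le]; constructor <;> linarith
  have h1 := box_abs_mul (box_abs_mul hN hs) h4
  have h2 := box_abs_mul hc0 (box_abs_mul hp hp)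
  have h3 := box_abs_mul hc0 (box_abs_mul hq hq)
  have h5 : |q - p| ≤ 11 / 100 := by
    rw [abs_le]; constructor <;> linarith
  have h6 := box_abs_mul (box_abs_mul h5 h5) hc3
  rw [abs_le] at h1 h2 h3 h6 hpc
  obtain ⟨h1a, h1b⟩ := h1
  obtain ⟨h2a, h2b⟩ := h2
  obtain ⟨h3a, h3b⟩ := h3
  obtain ⟨h6a, h6b⟩ := h6
  obtain ⟨h7a, h7b⟩ := hpc
  constructor
  · intro h
    have e : 9 * (q - p) * (1 + c) = -(9 / 10) * (1 + c) - 9 * (p * (1 + c)) := by rw [h]; ring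
    rw [e]
    nlinarith
  · intro h
    have e : 9 * (q - p) * (1 + c) = (9 / 10) * (1 + c) - 9 * (p * (1 + c)) := by rw [h]; ring
    have h8 : 0 ≤ (q - p) * (q - p) * (1 + c) := mul_nonneg (mul_self_nonneg _) (by linarith)
    rw [e]
    nlinarith

lemma box_key3 {N p q c s : ℝ} (hN0 : 17 / 10 ≤ N) (hc1 : 49 / 50 ≤ c)
    (hc2 : c ≤ 1) (hp : |p| ≤ 1 / 100) (hq : |q| ≤ 1 / 10) :
    (s ≤ -(19 / 100) → 0 < (1 + c) * (1 + (q - p)) * (3 * p + q) - (N * s) * (2 + p - q)) ∧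
    (19 / 100 ≤ s → (1 + c) * (1 + (q - p)) * (3 * p + q) - (N * s) * (2 + p - q) < 0) := by
  have hc3 : |1 + c| ≤ 2 := by rw [abs_le]; constructor <;> linarith
  obtain ⟨hp1, hp2⟩ := abs_le.mp hp
  obtain ⟨hq1, hq2⟩ := abs_le.mp hq
  have h4 : |3 * p + q| ≤ 13 / 100 := by
    rw [abs_le]; constructor <;> linarith
  have h5 : |1 + (q - p)| ≤ 111 / 100 := by
    rw [abs_le]; constructor <;> linarith
  have h1 := box_abs_mul (box_abs_mul hc3 h5) h4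
  rw [abs_le] at h1
  obtain ⟨h1a, h1b⟩ := h1
  constructor
  · intro h
    have h2 : 17 / 10 * (19 / 100) ≤ N * (-s) :=
      mul_le_mul hN0 (by linarith) (by norm_num) (by linarith)
    have h3 : 17 / 10 * (19 / 100) * (189 / 100) ≤ N * (-s) * (2 + p - q) :=
      mul_le_mul h2 (by linarith) (by norm_num) (by nlinarith)
    linarith
  · intro h
    have h2 : 17 / 10 * (19 / 100) ≤ N * s :=
      mul_le_mul hN0 (by linarith) (by norm_num) (by linarith)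
    have h3 : 17 / 10 * (19 / 100) * (189 / 100) ≤ N * s * (2 + p - q) :=
      mul_le_mul h2 (by linarith) (by norm_num) (by nlinarith)
    linarith

theorem box_signs {x y t : ℝ} (hx : x ∈ Set.Icc (0 : ℝ) 1) (hy : y ∈ Set.Icc (0 : ℝ) 1)
    (ht : t ∈ Set.Icc (15 / 32 : ℝ) (17 / 32)) :
    (x = 0 → 0 < ⟪Rot (vB x y) (2 * Real.pi * t) e1, uA⟫) ∧
    (x = 1 → ⟪Rot (vB x y) (2 * Real.pi * t) e1, uA⟫ < 0) ∧
    (y = 0 → ⟪Rot (vB x y) (2 * Real.pi * t) e3, uB⟫ < 0) ∧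
    (y = 1 → 0 < ⟪Rot (vB x y) (2 * Real.pi * t) e3, uB⟫) ∧
    (t = 15 / 32 → 0 < ⟪Rot (vB x y) (2 * Real.pi * t) e3, uC⟫) ∧
    (t = 17 / 32 → ⟪Rot (vB x y) (2 * Real.pi * t) e3, uC⟫ < 0) := by
  obtain ⟨c, s, hc, hs, hc1, hc2, hs1, hs2, hs3⟩ := box_angle ht
  obtain ⟨p, hp⟩ : ∃ p, p = (1 / 2 - x) / 50 := ⟨_, rfl⟩
  obtain ⟨q, hq⟩ : ∃ q, q = (y - 1 / 2) / 5 := ⟨_, rfl⟩
  obtain ⟨N, hN⟩ : ∃ N, N = ‖VB x y‖ := ⟨_, rfl⟩
  have hp1 : |p| ≤ 1 / 100 := by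
    rw [hp, abs_le]; constructor <;> linarith [hx.1, hx.2]
  have hq1 : |q| ≤ 1 / 10 := by
    rw [hq, abs_le]; constructor <;> linarith [hy.1, hy.2]
  have hN2 : N ^ 2 = 3 + 6 * p ^ 2 + 2 * q ^ 2 := by rw [hN, box_norm_sq, hp, hq]
  have hp2 : p ^ 2 ≤ (1 / 100) ^ 2 := by
    rw [← sq_abs]; exact pow_le_pow_left₀ (abs_nonneg _) hp1 2
  have hq2 : q ^ 2 ≤ (1 / 10) ^ 2 := by
    rw [← sq_abs]; exact pow_le_pow_left₀ (abs_nonneg _) hq1 2
  have hN0 : 0 ≤ N := by rw [hN]; positivity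
  have hN3 : 17 / 10 ≤ N := by
    by_contra h
    push Not at h
    nlinarith [sq_nonneg p, sq_nonneg q]
  have hN4 : |N| ≤ 7 / 4 := by
    rw [abs_of_nonneg hN0]
    by_contra h
    push Not at h
    nlinarith [sq_nonneg p, sq_nonneg q]
  have hNne : N ≠ 0 := by linarith
  have hNpos : 0 < N ^ 2 := by positivity
  have hV0 : VB x y = !₂[1 + 2 * p, 1 - p - q, 1 - p + q] := by
    rw [VB, hp, hq]
    congr 1
    ext i
    fin_cases i <;> simp <;> ring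
  have hv : vB x y = N⁻¹ • VB x y := by rw [vB, hN]
  have key1 : N ^ 2 * ⟪Rot (vB x y) (2 * Real.pi * t) e1, uA⟫ =
      6 * (1 - c) + 18 * p * (1 + c) + 12 * p ^ 2 * (1 - c) - 8 * q ^ 2 * c - 2 * q * (N * s) := by
    rw [hv, box_inner_Rot _ _ _ _ _ hNne, hN2, hc, hs, hV0]
    simp only [box_inner3, crs, e1, uA]
    simp
    ring
  have key2 : N ^ 2 * ⟪Rot (vB x y) (2 * Real.pi * t) e3, uB⟫ =
      6 * (1 - c) + 9 * (q - p) * (1 + c) + 3 * (q - p) ^ 2 * (1 + c) -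
        c * (24 * p ^ 2 + 8 * q ^ 2) + (N * s) * (3 * p + q) := by
    rw [hv, box_inner_Rot _ _ _ _ _ hNne, hN2, hc, hs, hV0]
    simp only [box_inner3, crs, e3, uB]
    simp
    ring
  have key3 : N ^ 2 * ⟪Rot (vB x y) (2 * Real.pi * t) e3, uC⟫ =
      (1 + c) * (1 + (q - p)) * (3 * p + q) - (N * s) * (2 + p - q) := by
    rw [hv, box_inner_Rot _ _ _ _ _ hNne, hN2, hc, hs, hV0]
    simp only [box_inner3, crs, e3, uC]
    simp
    ring
  have k1 := box_key1 hN4 hc1 hc2 hs1 hp1 hq1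
  have k2 := box_key2 hN4 hc1 hc2 hs1 hp1 hq1
  have k3 := box_key3 (s := s) hN3 hc1 hc2 hp1 hq1
  rw [← key1] at k1
  rw [← key2] at k2
  rw [← key3] at k3
  have pos : ∀ z : ℝ, 0 < N ^ 2 * z → 0 < z := fun z hz => (mul_pos_iff_of_pos_left hNpos).mp hz
  have neg : ∀ z : ℝ, N ^ 2 * z < 0 → z < 0 := fun z hz => by
    by_contra h
    push Not at h
    have := mul_nonneg hNpos.le h
    linarith
  refine ⟨fun h => ?_, fun h => ?_, fun h => ?_, fun h => ?_, fun h => ?_, fun h => ?_⟩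
  · exact pos _ (k1.1 (by rw [hp, h]; norm_num))
  · exact neg _ (k1.2 (by rw [hp, h]; norm_num))
  · exact neg _ (k2.1 (by rw [hq, h]; norm_num))
  · exact pos _ (k2.2 (by rw [hq, h]; norm_num))
  · exact pos _ (k3.1 (hs2 h))
  · exact neg _ (k3.2 (hs3 h))

end Pool.Agent.Helper50.Drop
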